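import Pool.Agent.Q276.HL.Stm

/-! HL-C1R4: chart 1, real variable part, quartic forms. -/

set_option autoImplicit false

namespace Pool.Agent.Q129.HL.C1R4

open Polynomial Pool.Agent.Q276.HL

/-! ### Polynomials -/

/-- the five term polynomial -/
noncomputable def p5 (a b c d e : ℝ) : ℝ[X] := C a + C b * X + C c * X ^ 2 + C d * X ^ 3 + C e * X ^ 4

theorem p5_eval (a b c d e x : ℝ) :
    (p5 a b c d e).eval x = a + b * x + c * x ^ 2 + d * x ^ 3 + e * x ^ 4 := by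
  simp [p5]

theorem p5_deg (a b c d e : ℝ) : (p5 a b c d e).natDegree ≤ 4 := by
  unfold p5
  compute_degree

theorem shift_bd {q : ℝ[X]} {M : ℝ} (hM : 0 ≤ M) (hq : ∀ k, |q.coeff k| ≤ M) (a : ℝ) (n k : ℕ) :
    |(C a * X ^ n * q).coeff k| ≤ |a| * M := by
  rw [mul_assoc, coeff_C_mul, coeff_X_pow_mul', abs_mul]
  split_ifs
  · exact mul_le_mul_of_nonneg_left (hq _) (abs_nonneg a)
  · rw [abs_zero, mul_zero]
    positivity

theorem mul_bd {q : ℝ[X]} {M : ℝ} (hq : ∀ k, |q.coeff k| ≤ M) (a b c d e : ℝ) (k : ℕ) :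
    |(p5 a b c d e * q).coeff k| ≤ (|a| + |b| + |c| + |d| + |e|) * M := by
  have hM : 0 ≤ M := (abs_nonneg _).trans (hq 0)
  have e0 : p5 a b c d e * q = C a * X ^ 0 * q + C b * X ^ 1 * q + C c * X ^ 2 * q +
      C d * X ^ 3 * q + C e * X ^ 4 * q := by
    unfold p5; ring
  rw [e0, coeff_add, coeff_add, coeff_add, coeff_add]
  have h0 := shift_bd hM hq a 0 k
  have h1 := shift_bd hM hq b 1 k
  have h2 := shift_bd hM hq c 2 k
  have h3 := shift_bd hM hq d 3 k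
  have h4 := shift_bd hM hq e 4 k
  have e4 := abs_add_le ((C a * X ^ 0 * q).coeff k + (C b * X ^ 1 * q).coeff k +
    (C c * X ^ 2 * q).coeff k + (C d * X ^ 3 * q).coeff k) ((C e * X ^ 4 * q).coeff k)
  have e1 := abs_add_le ((C a * X ^ 0 * q).coeff k + (C b * X ^ 1 * q).coeff k +
    (C c * X ^ 2 * q).coeff k) ((C d * X ^ 3 * q).coeff k)
  have e2 := abs_add_le ((C a * X ^ 0 * q).coeff k + (C b * X ^ 1 * q).coeff k)
    ((C c * X ^ 2 * q).coeff k)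
  have e3 := abs_add_le ((C a * X ^ 0 * q).coeff k) ((C b * X ^ 1 * q).coeff k)
  linarith

theorem pow_bd {q : ℝ[X]} {M : ℝ} (hq : ∀ k, |q.coeff k| ≤ M) (a b c d e : ℝ) (j : ℕ) :
    ∀ k, |(p5 a b c d e ^ j * q).coeff k| ≤ (|a| + |b| + |c| + |d| + |e|) ^ j * M := by
  induction j with
  | zero => intro k; simpa using hq k
  | succ j ih =>
    intro k
    have e0 : p5 a b c d e ^ (j + 1) * q = p5 a b c d e * (p5 a b c d e ^ j * q) := by ring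
    rw [e0]
    refine (mul_bd ih a b c d e k).trans (le_of_eq ?_)
    ring

theorem one_bd (k : ℕ) : |(1 : ℝ[X]).coeff k| ≤ 1 := by
  rw [coeff_one]
  split_ifs <;> simp

theorem lin_deg (b : ℝ) : (p5 1 b 0 0 0).natDegree ≤ 1 := by
  have e : p5 1 b 0 0 0 = C 1 + C b * X := by
    unfold p5; simp
  rw [e]
  compute_degree

/-! ### Roots -/

theorem quartic_cont (p0 p1 p2 p3 p4 : ℝ) :
    Continuous fun h : ℝ => p0 + p1 * h + p2 * h ^ 2 + p3 * h ^ 3 + p4 * h ^ 4 := by fun_prop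

/-- a root near `0` -/
theorem root_near {p0 p1 p2 p3 p4 ρ : ℝ} (hρ : 0 ≤ ρ)
    (h : |p0| + |p2| * ρ ^ 2 + |p3| * ρ ^ 3 + |p4| * ρ ^ 4 ≤ |p1| * ρ) :
    ∃ x : ℝ, |x| ≤ ρ ∧ p0 + p1 * x + p2 * x ^ 2 + p3 * x ^ 3 + p4 * x ^ 4 = 0 := by
  have hc := (quartic_cont p0 p1 p2 p3 p4).continuousOn (s := Set.Icc (-ρ) ρ)
  have hle : -ρ ≤ ρ := by linarith
  have a0 := abs_le.1 (le_refl |p0|)
  have r2 : 0 ≤ ρ ^ 2 := by positivity
  have r3 : 0 ≤ ρ ^ 3 := by positivity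
  have r4 : 0 ≤ ρ ^ 4 := by positivity
  have b2 : |p2 * ρ ^ 2| = |p2| * ρ ^ 2 := by rw [abs_mul, abs_of_nonneg r2]
  have b3 : |p3 * ρ ^ 3| = |p3| * ρ ^ 3 := by rw [abs_mul, abs_of_nonneg r3]
  have b4 : |p4 * ρ ^ 4| = |p4| * ρ ^ 4 := by rw [abs_mul, abs_of_nonneg r4]
  have c2 := abs_le.1 (le_of_eq b2)
  have c3 := abs_le.1 (le_of_eq b3)
  have c4 := abs_le.1 (le_of_eq b4)
  have n2 : p2 * (-ρ) ^ 2 = p2 * ρ ^ 2 := by ring
  have n3 : p3 * (-ρ) ^ 3 = -(p3 * ρ ^ 3) := by ring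
  have n4 : p4 * (-ρ) ^ 4 = p4 * ρ ^ 4 := by ring
  rcases le_total 0 p1 with hp | hp
  · rw [abs_of_nonneg hp] at h
    have h1 : p0 + p1 * (-ρ) + p2 * (-ρ) ^ 2 + p3 * (-ρ) ^ 3 + p4 * (-ρ) ^ 4 ≤ 0 := by
      rw [n2, n3, n4]; linarith [a0.2, c2.2, c3.1, c4.2]
    have h2 : 0 ≤ p0 + p1 * ρ + p2 * ρ ^ 2 + p3 * ρ ^ 3 + p4 * ρ ^ 4 := by
      linarith [a0.1, c2.1, c3.1, c4.1]
    obtain ⟨x, hx, hx0⟩ := intermediate_value_Icc hle hc ⟨h1, h2⟩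
    exact ⟨x, abs_le.2 hx, hx0⟩
  · rw [abs_of_nonpos hp] at h
    have h1 : 0 ≤ p0 + p1 * (-ρ) + p2 * (-ρ) ^ 2 + p3 * (-ρ) ^ 3 + p4 * (-ρ) ^ 4 := by
      rw [n2, n3, n4]; linarith [a0.1, c2.1, c3.2, c4.1]
    have h2 : p0 + p1 * ρ + p2 * ρ ^ 2 + p3 * ρ ^ 3 + p4 * ρ ^ 4 ≤ 0 := by
      linarith [a0.2, c2.2, c3.2, c4.2]
    obtain ⟨x, hx, hx0⟩ := intermediate_value_Icc' hle hc ⟨h2, h1⟩
    exact ⟨x, abs_le.2 hx, hx0⟩

/-- injectivity near `0` -/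
theorem lin_low {a1 a2 a3 a4 z κ : ℝ} (h : κ + |a2| * |z| + |a3| * |z| ^ 2 + |a4| * |z| ^ 3 ≤ |a1|) :
    κ * |z| ≤ |a1 * z + a2 * z ^ 2 + a3 * z ^ 3 + a4 * z ^ 4| := by
  obtain ⟨T, hT⟩ : ∃ T, T = a1 * z + a2 * z ^ 2 + a3 * z ^ 3 + a4 * z ^ 4 := ⟨_, rfl⟩
  rw [← hT]
  have e1 : |a1 * z| ≤ |T| + |a2 * z ^ 2| + |a3 * z ^ 3| + |a4 * z ^ 4| := by
    have e0 : a1 * z = T + (-(a2 * z ^ 2)) + (-(a3 * z ^ 3)) + (-(a4 * z ^ 4)) := by rw [hT]; ring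
    have f1 := abs_add_le (T + (-(a2 * z ^ 2)) + (-(a3 * z ^ 3))) (-(a4 * z ^ 4))
    have f2 := abs_add_le (T + (-(a2 * z ^ 2))) (-(a3 * z ^ 3))
    have f3 := abs_add_le T (-(a2 * z ^ 2))
    rw [abs_neg] at f1 f2 f3
    rw [e0]
    linarith
  rw [abs_mul, abs_mul, abs_mul, abs_mul, abs_pow, abs_pow, abs_pow] at e1
  have e2 := mul_le_mul_of_nonneg_right h (abs_nonneg z)
  have e3 : (κ + |a2| * |z| + |a3| * |z| ^ 2 + |a4| * |z| ^ 3) * |z| =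
    κ * |z| + |a2| * |z| ^ 2 + |a3| * |z| ^ 3 + |a4| * |z| ^ 4 := by ring
  rw [e3] at e2
  linarith

/-- the exact root near `y` -/
theorem rootA {C e A B G D E y : ℝ} (hC : 1 ≤ C) (he : 0 ≤ e) (he1 : 400 * C ^ 5 * e ≤ 1)
    (hG : |G| ≤ C) (hD : |D| ≤ C) (hE : |E| ≤ C) (hy : |y| ≤ C)
    (hg : |A + 4 * B * y + 6 * G * y ^ 2 + 4 * D * y ^ 3 + E * y ^ 4| ≤ e)
    (hd : 1 ≤ C * |B + 3 * G * y + 3 * D * y ^ 2 + E * y ^ 3|) :
    ∃ r : ℝ, |r - y| ≤ C * e ∧ A + 4 * B * r + 6 * G * r ^ 2 + 4 * D * r ^ 3 + E * r ^ 4 = 0 := by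
  have hC0 : 0 < C := by linarith
  have hC5 : 1 ≤ C ^ 5 := one_le_pow₀ hC
  have he3 : 1 * e ≤ C ^ 5 * e := by gcongr
  have he2 : e ≤ 1 := by linarith
  have hC13 : C ≤ C ^ 3 := by
    calc C = C ^ 1 := (pow_one C).symm
      _ ≤ C ^ 3 := pow_le_pow_right₀ hC (by norm_num)
  have hC23 : C ^ 2 ≤ C ^ 3 := pow_le_pow_right₀ hC (by norm_num)
  have hC12 : C ≤ C ^ 2 := by
    calc C = C ^ 1 := (pow_one C).symm
      _ ≤ C ^ 2 := pow_le_pow_right₀ hC (by norm_num)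
  have h1 : |6 * G + 12 * D * y + 6 * E * y ^ 2| ≤ 24 * C ^ 3 := by
    calc |6 * G + 12 * D * y + 6 * E * y ^ 2| ≤ |6 * G + 12 * D * y| + |6 * E * y ^ 2| := abs_add_le _ _
      _ ≤ |6 * G| + |12 * D * y| + |6 * E * y ^ 2| := by gcongr; exact abs_add_le _ _
      _ = 6 * |G| + 12 * (|D| * |y|) + 6 * (|E| * |y| ^ 2) := by
        rw [abs_mul, abs_mul, abs_mul, abs_mul, abs_mul, abs_pow, abs_of_pos (by norm_num : (0 : ℝ) < 6),
          abs_of_pos (by norm_num : (0 : ℝ) < 12)]; ring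
      _ ≤ 6 * C + 12 * (C * C) + 6 * (C * C ^ 2) := by gcongr
      _ = 6 * C + 12 * C ^ 2 + 6 * C ^ 3 := by ring
      _ ≤ 24 * C ^ 3 := by linarith
  have h2 : |4 * D + 4 * E * y| ≤ 8 * C ^ 2 := by
    calc |4 * D + 4 * E * y| ≤ |4 * D| + |4 * E * y| := abs_add_le _ _
      _ = 4 * |D| + 4 * (|E| * |y|) := by
        rw [abs_mul, abs_mul, abs_mul, abs_of_pos (by norm_num : (0 : ℝ) < 4)]; ring
      _ ≤ 4 * C + 4 * (C * C) := by gcongr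
      _ = 4 * C + 4 * C ^ 2 := by ring
      _ ≤ 8 * C ^ 2 := by linarith
  have hx : C ^ 5 * e ≤ 1 / 400 := by linarith
  have t1 : |6 * G + 12 * D * y + 6 * E * y ^ 2| * (C * e) ^ 2 ≤ e := by
    calc |6 * G + 12 * D * y + 6 * E * y ^ 2| * (C * e) ^ 2 ≤ 24 * C ^ 3 * (C * e) ^ 2 := by gcongr
      _ = 24 * (C ^ 5 * e) * e := by ring
      _ ≤ 1 * e := by
        apply mul_le_mul_of_nonneg_right _ he
        linarith
      _ = e := one_mul e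
  have t2 : |4 * D + 4 * E * y| * (C * e) ^ 3 ≤ e := by
    calc |4 * D + 4 * E * y| * (C * e) ^ 3 ≤ 8 * C ^ 2 * (C * e) ^ 3 := by gcongr
      _ = 8 * (C ^ 5 * e) * e * e := by ring
      _ ≤ 1 * 1 * e := by
        gcongr
        linarith
      _ = e := by ring
  have t4 : |E| * (C * e) ^ 4 ≤ e := by
    calc |E| * (C * e) ^ 4 ≤ C * (C * e) ^ 4 := by gcongr
      _ = (C ^ 5 * e) * e * e * e := by ring
      _ ≤ 1 * 1 * 1 * e := by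
        gcongr
        linarith
      _ = e := by ring
  have t3 : 4 * e ≤ |4 * (B + 3 * G * y + 3 * D * y ^ 2 + E * y ^ 3)| * (C * e) := by
    rw [abs_mul, abs_of_pos (by norm_num : (0 : ℝ) < 4)]
    calc 4 * e = 4 * (1 * e) := by ring
      _ ≤ 4 * (C * |B + 3 * G * y + 3 * D * y ^ 2 + E * y ^ 3| * e) := by gcongr
      _ = _ := by ring
  obtain ⟨x, hx, hx0⟩ := root_near (p0 := A + 4 * B * y + 6 * G * y ^ 2 + 4 * D * y ^ 3 + E * y ^ 4)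
    (p1 := 4 * (B + 3 * G * y + 3 * D * y ^ 2 + E * y ^ 3)) (p2 := 6 * G + 12 * D * y + 6 * E * y ^ 2)
    (p3 := 4 * D + 4 * E * y) (p4 := E) (ρ := C * e)
    (by positivity) (by linarith)
  refine ⟨y + x, ?_, ?_⟩
  · have : y + x - y = x := by ring
    rw [this]; exact hx
  · linear_combination hx0

theorem consts {C e B G D E y y0 : ℝ} (hC : 1 ≤ C) (he : 0 ≤ e) (he1 : 400 * C ^ 5 * e ≤ 1)
    (hB : |B| ≤ C) (hG : |G| ≤ C) (hD : |D| ≤ C) (hE : |E| ≤ C) (hy : |y| ≤ C) (hy0y : |y0 - y| ≤ C * e)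
    (hd : 1 ≤ C * |B + 3 * G * y + 3 * D * y ^ 2 + E * y ^ 3|) :
    |y0| ≤ 2 * C ∧ |4 * (B + 3 * G * y0 + 3 * D * y0 ^ 2 + E * y0 ^ 3)| ≤ 108 * C ^ 4 ∧
      |6 * G + 12 * D * y0 + 6 * E * y0 ^ 2| ≤ 54 * C ^ 3 ∧ |4 * D + 4 * E * y0| ≤ 12 * C ^ 2 ∧
      2 ≤ C * |4 * (B + 3 * G * y0 + 3 * D * y0 ^ 2 + E * y0 ^ 3)| := by
  have hC0 : 0 < C := by linarith
  have hC5 : 1 ≤ C ^ 5 := one_le_pow₀ hC
  have he3 : 1 * e ≤ C ^ 5 * e := by gcongr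
  have he2 : e ≤ 1 := by linarith
  have hC12 : C ≤ C ^ 2 := by
    calc C = C ^ 1 := (pow_one C).symm
      _ ≤ C ^ 2 := pow_le_pow_right₀ hC (by norm_num)
  have hC23 : C ^ 2 ≤ C ^ 3 := pow_le_pow_right₀ hC (by norm_num)
  have hC34 : C ^ 3 ≤ C ^ 4 := pow_le_pow_right₀ hC (by norm_num)
  have hCe' : C * e ≤ C := by
    calc C * e ≤ C * 1 := by gcongr
      _ = C := mul_one C
  have hy0 : |y0| ≤ 2 * C := by
    have e1 : y0 = (y0 - y) + y := by ring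
    calc |y0| = |(y0 - y) + y| := by rw [← e1]
      _ ≤ |y0 - y| + |y| := abs_add_le _ _
      _ ≤ 2 * C := by linarith
  have h3 : (0 : ℝ) < 3 := by norm_num
  have h4 : (0 : ℝ) < 4 := by norm_num
  refine ⟨hy0, ?_, ?_, ?_, ?_⟩
  · rw [abs_mul, abs_of_pos h4]
    have c1 : |B + 3 * G * y0 + 3 * D * y0 ^ 2 + E * y0 ^ 3| ≤
        C + 3 * C * (2 * C) + 3 * C * (2 * C) ^ 2 + C * (2 * C) ^ 3 := by
      calc |B + 3 * G * y0 + 3 * D * y0 ^ 2 + E * y0 ^ 3|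
          ≤ |B + 3 * G * y0 + 3 * D * y0 ^ 2| + |E * y0 ^ 3| := abs_add_le _ _
        _ ≤ |B + 3 * G * y0| + |3 * D * y0 ^ 2| + |E * y0 ^ 3| := by gcongr; exact abs_add_le _ _
        _ ≤ |B| + |3 * G * y0| + |3 * D * y0 ^ 2| + |E * y0 ^ 3| := by gcongr; exact abs_add_le _ _
        _ = |B| + 3 * |G| * |y0| + 3 * |D| * |y0| ^ 2 + |E| * |y0| ^ 3 := by
          rw [abs_mul, abs_mul, abs_mul, abs_mul, abs_mul, abs_pow, abs_pow, abs_of_pos h3]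
        _ ≤ _ := by gcongr
    have c2 : C + 3 * C * (2 * C) + 3 * C * (2 * C) ^ 2 + C * (2 * C) ^ 3 =
      C + 6 * C ^ 2 + 12 * C ^ 3 + 8 * C ^ 4 := by ring
    linarith
  · calc |6 * G + 12 * D * y0 + 6 * E * y0 ^ 2| ≤ |6 * G + 12 * D * y0| + |6 * E * y0 ^ 2| := abs_add_le _ _
      _ ≤ |6 * G| + |12 * D * y0| + |6 * E * y0 ^ 2| := by gcongr; exact abs_add_le _ _
      _ = 6 * |G| + 12 * (|D| * |y0|) + 6 * (|E| * |y0| ^ 2) := by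
        rw [abs_mul, abs_mul, abs_mul, abs_mul, abs_mul, abs_pow, abs_of_pos (by norm_num : (0 : ℝ) < 6),
          abs_of_pos (by norm_num : (0 : ℝ) < 12)]; ring
      _ ≤ 6 * C + 12 * (C * (2 * C)) + 6 * (C * (2 * C) ^ 2) := by gcongr
      _ = 6 * C + 24 * C ^ 2 + 24 * C ^ 3 := by ring
      _ ≤ 54 * C ^ 3 := by linarith
  · calc |4 * D + 4 * E * y0| ≤ |4 * D| + |4 * E * y0| := abs_add_le _ _
      _ = 4 * |D| + 4 * (|E| * |y0|) := by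
        rw [abs_mul, abs_mul, abs_mul, abs_of_pos h4]; ring
      _ ≤ 4 * C + 4 * (C * (2 * C)) := by gcongr
      _ = 4 * C + 8 * C ^ 2 := by ring
      _ ≤ 12 * C ^ 2 := by linarith
  · have c1 : |B + 3 * G * y + 3 * D * y ^ 2 + E * y ^ 3| ≤ |B + 3 * G * y0 + 3 * D * y0 ^ 2 + E * y0 ^ 3| +
        C * e * (19 * C ^ 3) := by
      have c2 : B + 3 * G * y + 3 * D * y ^ 2 + E * y ^ 3 = (B + 3 * G * y0 + 3 * D * y0 ^ 2 + E * y0 ^ 3) +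
          (-(y0 - y)) * (3 * G + 3 * D * (y0 + y) + E * (y0 ^ 2 + y0 * y + y ^ 2)) := by ring
      have c3 : |3 * G + 3 * D * (y0 + y) + E * (y0 ^ 2 + y0 * y + y ^ 2)| ≤ 19 * C ^ 3 := by
        have c4 : |y0 + y| ≤ 3 * C := (abs_add_le _ _).trans (by linarith)
        have c5 : |y0 ^ 2 + y0 * y + y ^ 2| ≤ 7 * C ^ 2 := by
          calc |y0 ^ 2 + y0 * y + y ^ 2| ≤ |y0 ^ 2 + y0 * y| + |y ^ 2| := abs_add_le _ _
            _ ≤ |y0 ^ 2| + |y0 * y| + |y ^ 2| := by gcongr; exact abs_add_le _ _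
            _ = |y0| ^ 2 + |y0| * |y| + |y| ^ 2 := by rw [abs_mul, abs_pow, abs_pow]
            _ ≤ (2 * C) ^ 2 + 2 * C * C + C ^ 2 := by gcongr
            _ = 7 * C ^ 2 := by ring
        calc |3 * G + 3 * D * (y0 + y) + E * (y0 ^ 2 + y0 * y + y ^ 2)|
            ≤ |3 * G + 3 * D * (y0 + y)| + |E * (y0 ^ 2 + y0 * y + y ^ 2)| := abs_add_le _ _
          _ ≤ |3 * G| + |3 * D * (y0 + y)| + |E * (y0 ^ 2 + y0 * y + y ^ 2)| := by
            gcongr; exact abs_add_le _ _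
          _ = 3 * |G| + 3 * |D| * |y0 + y| + |E| * |y0 ^ 2 + y0 * y + y ^ 2| := by
            rw [abs_mul, abs_mul, abs_mul, abs_mul, abs_of_pos h3]
          _ ≤ 3 * C + 3 * C * (3 * C) + C * (7 * C ^ 2) := by gcongr
          _ = 3 * C + 9 * C ^ 2 + 7 * C ^ 3 := by ring
          _ ≤ 19 * C ^ 3 := by linarith
      calc |B + 3 * G * y + 3 * D * y ^ 2 + E * y ^ 3| = |(B + 3 * G * y0 + 3 * D * y0 ^ 2 + E * y0 ^ 3) +
          (-(y0 - y)) * (3 * G + 3 * D * (y0 + y) + E * (y0 ^ 2 + y0 * y + y ^ 2))| := by rw [← c2]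
        _ ≤ |B + 3 * G * y0 + 3 * D * y0 ^ 2 + E * y0 ^ 3| +
            |(-(y0 - y)) * (3 * G + 3 * D * (y0 + y) + E * (y0 ^ 2 + y0 * y + y ^ 2))| :=
          abs_add_le _ _
        _ = |B + 3 * G * y0 + 3 * D * y0 ^ 2 + E * y0 ^ 3| +
            |y0 - y| * |3 * G + 3 * D * (y0 + y) + E * (y0 ^ 2 + y0 * y + y ^ 2)| := by
          rw [abs_mul, abs_neg]
        _ ≤ _ := by gcongr
    have c5 : C * (C * e * (19 * C ^ 3)) ≤ 1 / 2 := by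
      have : C * (C * e * (19 * C ^ 3)) = 19 * (C ^ 5 * e) := by ring
      rw [this]; linarith
    have c6 : C * |B + 3 * G * y + 3 * D * y ^ 2 + E * y ^ 3| ≤
        C * (|B + 3 * G * y0 + 3 * D * y0 ^ 2 + E * y0 ^ 3| + C * e * (19 * C ^ 3)) := by gcongr
    rw [abs_mul, abs_of_pos h4]
    have c8 : C * (|B + 3 * G * y0 + 3 * D * y0 ^ 2 + E * y0 ^ 3| + C * e * (19 * C ^ 3)) =
      C * |B + 3 * G * y0 + 3 * D * y0 ^ 2 + E * y0 ^ 3| + C * (C * e * (19 * C ^ 3)) := by ring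
    linarith

/-- the bootstrap -/
theorem boot {C δ y0 z : ℝ} (hC : 1 ≤ C) (hδ : 0 ≤ δ) (hδ1 : 16 * C * δ < 1) (hy0 : y0 ≠ 0)
    (hz : |z| ≤ 1) (h : |z| ≤ C * (δ * |y0 + z| ^ 4)) : |z| ≤ 16 * C * δ * |y0| ^ 4 := by
  have hC0 : 0 < C := by linarith
  have h1 : |y0 + z| ≤ |y0| + |z| := abs_add_le _ _
  rcases le_or_gt |y0| |z| with hc | hc
  · exfalso
    have hp : 0 < |z| := lt_of_lt_of_le (abs_pos.2 hy0) hc
    have h2 : |y0 + z| ^ 4 ≤ (2 * |z|) ^ 4 := by gcongr; linarith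
    have h3 : |z| ≤ (16 * C * δ) * |z| ^ 4 := by
      calc |z| ≤ C * (δ * |y0 + z| ^ 4) := h
        _ ≤ C * (δ * (2 * |z|) ^ 4) := by gcongr
        _ = _ := by ring
    have h4 : |z| ^ 4 ≤ |z| := by
      calc |z| ^ 4 ≤ |z| ^ 1 := pow_le_pow_of_le_one (abs_nonneg z) hz (by norm_num)
        _ = |z| := pow_one _
    have h5 : (16 * C * δ) * |z| ^ 4 ≤ (16 * C * δ) * |z| := by gcongr
    have h6 : (16 * C * δ) * |z| < 1 * |z| := mul_lt_mul_of_pos_right hδ1 hp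
    linarith
  · have h2 : |y0 + z| ^ 4 ≤ (2 * |y0|) ^ 4 := by gcongr; linarith
    calc |z| ≤ C * (δ * |y0 + z| ^ 4) := h
      _ ≤ C * (δ * (2 * |y0|) ^ 4) := by gcongr
      _ = _ := by ring

theorem c1r4 : StmtC1R4 := by
  intro C hC
  have hC0 : 0 < C := by linarith
  have hC5 : 1 ≤ C ^ 5 := one_le_pow₀ hC
  have hC13 : 1 ≤ C ^ 13 := one_le_pow₀ hC
  have hle : ∀ n, n ≤ 13 → C ^ n ≤ C ^ 13 := fun n hn => pow_le_pow_right₀ hC hn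
  have h1_13 : C ≤ C ^ 13 := by
    calc C = C ^ 1 := (pow_one C).symm
      _ ≤ C ^ 13 := hle 1 (by norm_num)
  have h3_13 := hle 3 (by norm_num)
  have h4_13 := hle 4 (by norm_num)
  have h5_13 := hle 5 (by norm_num)
  have h7_13 := hle 7 (by norm_num)
  have h10_13 := hle 10 (by norm_num)
  have h12_13 := hle 12 (by norm_num)
  refine ⟨1 / (200 * C ^ 4), 10000 * C ^ 13, by positivity, by linarith, ?_⟩
  intro S L e A B G D ι τ E y i₀ hS hL hLS he he0 hA0 hA hB hG hD hE hy hg hd hyy hτ hτL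
  have he1 : 400 * C ^ 5 * e ≤ 1 := by
    have : C ^ 5 * e ≤ C ^ 13 * e := by gcongr
    have h7 : 0 ≤ C ^ 13 * e := by positivity
    linarith
  have hδ0 : 0 ≤ L / S := by positivity
  have hδ1 : 10000 * C ^ 13 * (L / S) ≤ 1 := by
    rw [← mul_div_assoc, div_le_one hS]; exact hLS
  -- roots
  choose r hr1 hr2 using fun i => rootA hC he he1 hG hD (hE i) (hy i) (hg i) (hd i)
  intro m
  have he3 : 1 * e ≤ C ^ 5 * e := by gcongr
  have he2 : e ≤ 1 := by linarith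
  have hCe : C * e ≤ 1 / (400 * C ^ 4) := by
    rw [le_div_iff₀ (by positivity)]
    calc C * e * (400 * C ^ 4) = 400 * C ^ 5 * e := by ring
      _ ≤ 1 := he1
  obtain ⟨y0, hy0def⟩ : ∃ y0, y0 = r i₀ := ⟨_, rfl⟩
  have hy0y : |y0 - y i₀| ≤ C * e := by rw [hy0def]; exact hr1 i₀
  obtain ⟨hy0, b1, b2, b3, b5⟩ := consts hC he he1 hB hG hD (hE i₀) (hy i₀) hy0y (hd i₀)
  obtain ⟨a1, ha1⟩ : ∃ a1, a1 = 4 * (B + 3 * G * y0 + 3 * D * y0 ^ 2 + E i₀ * y0 ^ 3) := ⟨_, rfl⟩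
  obtain ⟨a2, ha2⟩ : ∃ a2, a2 = 6 * G + 12 * D * y0 + 6 * E i₀ * y0 ^ 2 := ⟨_, rfl⟩
  obtain ⟨a3, ha3⟩ : ∃ a3, a3 = 4 * D + 4 * E i₀ * y0 := ⟨_, rfl⟩
  obtain ⟨a4, ha4⟩ : ∃ a4, a4 = E i₀ := ⟨_, rfl⟩
  have b4 : |a4| ≤ C := by rw [ha4]; exact hE i₀
  rw [← ha1] at b1 b5
  rw [← ha2] at b2
  rw [← ha3] at b3
  have hy00 : y0 ≠ 0 := by
    intro h0
    have h2 := hr2 i₀
    rw [← hy0def, h0] at h2
    apply hA0
    linarith
  have hz : ∀ i, |r i - y0| ≤ 1 / (100 * C ^ 4) := by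
    intro i
    have e1 : r i - y0 = (r i - y i) + (y i - y i₀) + (-(y0 - y i₀)) := by ring
    have e2 : 1 / (100 * C ^ 4) = 1 / (400 * C ^ 4) + 1 / (200 * C ^ 4) + 1 / (400 * C ^ 4) := by
      field_simp; norm_num
    calc |r i - y0| = |(r i - y i) + (y i - y i₀) + (-(y0 - y i₀))| := by rw [← e1]
      _ ≤ |(r i - y i) + (y i - y i₀)| + |-(y0 - y i₀)| := abs_add_le _ _
      _ ≤ |r i - y i| + |y i - y i₀| + |-(y0 - y i₀)| := by gcongr; exact abs_add_le _ _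
      _ = |r i - y i| + |y i - y i₀| + |y0 - y i₀| := by rw [abs_neg (y0 - y i₀)]
      _ ≤ 1 / (100 * C ^ 4) := by linarith [hr1 i, hyy i i₀]
  have hrel : ∀ i, (τ i : ℝ) * r i ^ 4 = S * (-(a1 * (r i - y0) + a2 * (r i - y0) ^ 2 +
      a3 * (r i - y0) ^ 3 + a4 * (r i - y0) ^ 4)) := by
    intro i
    rw [hτ i, ha1, ha2, ha3, ha4]
    have h1 := hr2 i
    have h2 := hr2 i₀
    rw [← hy0def] at h2
    linear_combination S * h1 - S * h2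
  have hzL : ∀ i, |r i - y0| ≤ 16 * C * (L / S) * |y0| ^ 4 := by
    intro i
    have hz1 := hz i
    have hcond : 1 / C + |a2| * |r i - y0| + |a3| * |r i - y0| ^ 2 + |a4| * |r i - y0| ^ 3 ≤ |a1| := by
      have c1 : |a2| * |r i - y0| ≤ 54 * C ^ 3 * (1 / (100 * C ^ 4)) := by gcongr
      have c2 : 54 * C ^ 3 * (1 / (100 * C ^ 4)) = 54 / 100 * (1 / C) := by field_simp
      have c3 : |a3| * |r i - y0| ^ 2 ≤ 12 * C ^ 2 * (1 / (100 * C ^ 4)) ^ 2 := by gcongr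
      have c4 : 12 * C ^ 2 * (1 / (100 * C ^ 4)) ^ 2 = 12 / 10000 * (1 / C) * (1 / C ^ 5) := by
        field_simp; norm_num
      have c5 : 1 / C ^ 5 ≤ 1 := by
        rw [div_le_one (by positivity)]; exact hC5
      have c6 : 12 / 10000 * (1 / C) * (1 / C ^ 5) ≤ 12 / 10000 * (1 / C) * 1 := by gcongr
      have d3 : |a4| * |r i - y0| ^ 3 ≤ C * (1 / (100 * C ^ 4)) ^ 3 := by gcongr
      have d4 : C * (1 / (100 * C ^ 4)) ^ 3 = 1 / 1000000 * (1 / C) * (1 / C ^ 10) := by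
        field_simp; norm_num
      have d5 : 1 / C ^ 10 ≤ 1 := by
        rw [div_le_one (by positivity)]; exact one_le_pow₀ hC
      have d6 : 1 / 1000000 * (1 / C) * (1 / C ^ 10) ≤ 1 / 1000000 * (1 / C) * 1 := by gcongr
      have c7 : 2 * (1 / C) ≤ |a1| := by
        rw [mul_one_div, div_le_iff₀ hC0]
        linarith
      have c8 : 0 < 1 / C := by positivity
      linarith
    have h1 := lin_low hcond
    have h2 : |a1 * (r i - y0) + a2 * (r i - y0) ^ 2 + a3 * (r i - y0) ^ 3 + a4 * (r i - y0) ^ 4| ≤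
        L / S * |y0 + (r i - y0)| ^ 4 := by
      have e1 : y0 + (r i - y0) = r i := by ring
      rw [e1, div_mul_eq_mul_div, le_div_iff₀ hS]
      have h3 := congrArg abs (hrel i)
      rw [abs_mul, abs_mul, abs_neg, abs_of_pos hS, abs_pow] at h3
      have h4 : |(τ i : ℝ)| * |r i| ^ 4 ≤ L * |r i| ^ 4 := by gcongr; exact hτL i
      linarith
    refine boot hC hδ0 ?_ hy00 (hz1.trans ?_) ?_
    · have h3 : C * (L / S) ≤ C ^ 13 * (L / S) := by gcongr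
      have h4 : 0 ≤ C * (L / S) := by positivity
      rcases h4.eq_or_lt with h5 | h5
      · rw [mul_assoc, ← h5]; norm_num
      · linarith
    · rw [div_le_one (by positivity)]
      have : 1 ≤ C ^ 4 := one_le_pow₀ hC
      linarith
    · calc |r i - y0| = C * (1 / C * |r i - y0|) := by field_simp
        _ ≤ C * (L / S * |y0 + (r i - y0)| ^ 4) :=
          mul_le_mul_of_nonneg_left (h1.trans h2) hC0.le
  -- the new parameter
  obtain ⟨U, hU⟩ : ∃ U : ι → ℝ, ∀ i, U i = (r i - y0) / y0 ^ 4 := ⟨fun i => _, fun i => rfl⟩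
  have hUz : ∀ i, y0 ^ 4 * U i = r i - y0 := by
    intro i
    rw [hU i]
    field_simp
  have hUL : ∀ i, |U i| ≤ 16 * C * (L / S) := by
    intro i
    have h1 := hzL i
    rw [← hUz i, abs_mul, abs_pow] at h1
    have h2 : 0 < |y0| ^ 4 := by
      have := abs_pos.2 hy00
      positivity
    refine le_of_mul_le_mul_left ?_ h2
    linarith
  obtain ⟨w, hw⟩ : ∃ w : ι → ℝ, ∀ i, w i = 1 + y0 ^ 3 * U i := ⟨fun i => _, fun i => rfl⟩
  have hwr : ∀ i, y0 * w i = r i := by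
    intro i
    have h1 := hUz i
    rw [hw i]
    linear_combination h1
  have hw1 : ∀ i, 1 / 2 ≤ w i := by
    intro i
    have h1 : |y0 ^ 3 * U i| ≤ 1 / 2 := by
      rw [abs_mul, abs_pow]
      calc |y0| ^ 3 * |U i| ≤ (2 * C) ^ 3 * (16 * C * (L / S)) := by
            gcongr; exact hUL i
        _ = 128 * (C ^ 4 * (L / S)) := by ring
        _ ≤ 128 * (C ^ 13 * (L / S)) := by gcongr
        _ ≤ 1 / 2 := by
          have h7 : 0 ≤ C ^ 13 * (L / S) := by positivity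
          linarith
    have h2 := (abs_le.1 h1).1
    rw [hw i]
    linarith
  have hτw : ∀ i, w i ^ 4 * (τ i : ℝ) =
      S * (-(a1 * U i + a2 * y0 ^ 4 * U i ^ 2 + a3 * y0 ^ 8 * U i ^ 3 + a4 * y0 ^ 12 * U i ^ 4)) := by
    intro i
    have h1 := hrel i
    rw [← hUz i, ← hwr i] at h1
    have h2 : y0 ^ 4 ≠ 0 := pow_ne_zero 4 hy00
    apply mul_left_cancel₀ h2
    linear_combination h1
  have hC41 : 1 ≤ 10000 * C ^ 13 := by linarith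
  refine ⟨fun j => p5 0 (-a1) (-(a2 * y0 ^ 4)) (-(a3 * y0 ^ 8)) (-(a4 * y0 ^ 12)) ^ (j : ℕ) *
      (p5 1 (y0 ^ 3) 0 0 0 ^ (4 * (m - 1 - (j : ℕ))) * 1), y0, y0 ^ 4, fun i => w i ^ (4 * (m - 1)),
    fun i => U i, fun i => y i - r i, ?_, ?_, ?_, ?_, ?_, ?_, ?_, ?_, ?_⟩
  · intro j
    have h1 : (p5 0 (-a1) (-(a2 * y0 ^ 4)) (-(a3 * y0 ^ 8)) (-(a4 * y0 ^ 12)) ^ (j : ℕ)).natDegree ≤
        (j : ℕ) * 4 := natDegree_pow_le_of_le (j : ℕ) (p5_deg _ _ _ _ _)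
    have h2 : (p5 1 (y0 ^ 3) 0 0 0 ^ (4 * (m - 1 - (j : ℕ))) * 1).natDegree ≤
        4 * (m - 1 - (j : ℕ)) * 1 := by
      rw [mul_one]
      exact natDegree_pow_le_of_le _ (lin_deg _)
    have h3 := natDegree_mul_le_of_le h1 h2
    refine h3.trans ?_
    have := j.2
    omega
  · intro j k
    have h0 := pow_bd one_bd 1 (y0 ^ 3) 0 0 0 (4 * (m - 1 - (j : ℕ)))
    have h1 := pow_bd h0 0 (-a1) (-(a2 * y0 ^ 4)) (-(a3 * y0 ^ 8)) (-(a4 * y0 ^ 12)) (j : ℕ) k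
    refine h1.trans ?_
    rw [mul_one, abs_zero, abs_neg, abs_neg, abs_neg, abs_neg, zero_add, abs_one, add_zero, add_zero, add_zero]
    have c1 : |a2 * y0 ^ 4| ≤ 864 * C ^ 7 := by
      rw [abs_mul, abs_pow]
      calc |a2| * |y0| ^ 4 ≤ 54 * C ^ 3 * (2 * C) ^ 4 := by gcongr
        _ = 864 * C ^ 7 := by ring
    have c2 : |a3 * y0 ^ 8| ≤ 3072 * C ^ 10 := by
      rw [abs_mul, abs_pow]
      calc |a3| * |y0| ^ 8 ≤ 12 * C ^ 2 * (2 * C) ^ 8 := by gcongr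
        _ = 3072 * C ^ 10 := by ring
    have c3 : |a4 * y0 ^ 12| ≤ 4096 * C ^ 13 := by
      rw [abs_mul, abs_pow]
      calc |a4| * |y0| ^ 12 ≤ C * (2 * C) ^ 12 := by gcongr
        _ = 4096 * C ^ 13 := by ring
    have h2 : |a1| + |a2 * y0 ^ 4| + |a3 * y0 ^ 8| + |a4 * y0 ^ 12| ≤ 10000 * C ^ 13 := by linarith
    have h3 : (1 + |y0 ^ 3|) ^ 4 ≤ 10000 * C ^ 13 := by
      have h4 : 1 + |y0 ^ 3| ≤ 9 * C ^ 3 := by
        rw [abs_pow]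
        have h5 : |y0| ^ 3 ≤ (2 * C) ^ 3 := by gcongr
        have h6 : 1 ≤ C ^ 3 := one_le_pow₀ hC
        have h7 : (2 * C) ^ 3 = 8 * C ^ 3 := by ring
        linarith
      calc (1 + |y0 ^ 3|) ^ 4 ≤ (9 * C ^ 3) ^ 4 := by gcongr
        _ = 6561 * C ^ 12 := by ring
        _ ≤ 10000 * C ^ 13 := by linarith
    rw [pow_mul (1 + |y0 ^ 3|) 4]
    calc (|a1| + |a2 * y0 ^ 4| + |a3 * y0 ^ 8| + |a4 * y0 ^ 12|) ^ (j : ℕ) *
          ((1 + |y0 ^ 3|) ^ 4) ^ (m - 1 - (j : ℕ))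
        ≤ (10000 * C ^ 13) ^ (j : ℕ) * (10000 * C ^ 13) ^ (m - 1 - (j : ℕ)) := by gcongr
      _ = (10000 * C ^ 13) ^ ((j : ℕ) + (m - 1 - (j : ℕ))) := by rw [pow_add]
      _ ≤ (10000 * C ^ 13) ^ m := by
        apply pow_le_pow_right₀ hC41
        have := j.2
        omega
  · linarith
  · rw [abs_pow]
    calc |y0| ^ 4 ≤ (2 * C) ^ 4 := by gcongr
      _ = 16 * C ^ 4 := by ring
      _ ≤ 10000 * C ^ 13 := by linarith
  · intro i
    show 1 ≤ (10000 * C ^ 13) ^ m * w i ^ (4 * (m - 1))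
    have h1 : (1 / 2 : ℝ) ^ 4 ≤ w i ^ 4 := by
      have := hw1 i
      gcongr
    have h2 : 1 ≤ 10000 * C ^ 13 * w i ^ 4 := by
      calc (1 : ℝ) ≤ 10000 * 1 * (1 / 2) ^ 4 := by norm_num
        _ ≤ 10000 * C ^ 13 * w i ^ 4 := by gcongr
    have h3 : 0 ≤ w i ^ 4 := by positivity
    calc (1 : ℝ) ≤ (10000 * C ^ 13 * w i ^ 4) ^ (m - 1) := one_le_pow₀ h2
      _ = (10000 * C ^ 13) ^ (m - 1) * w i ^ (4 * (m - 1)) := by rw [mul_pow, pow_mul]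
      _ ≤ (10000 * C ^ 13) ^ m * w i ^ (4 * (m - 1)) := by
        rw [pow_mul]
        gcongr
        omega
  · intro i
    refine (hUL i).trans ?_
    gcongr
    linarith
  · intro i
    show |y i - r i| ≤ _
    rw [abs_sub_comm]
    refine (hr1 i).trans ?_
    gcongr
    linarith
  · intro i j
    show w i ^ (4 * (m - 1)) * (τ i : ℝ) ^ (j : ℕ) = S ^ (j : ℕ) *
      (p5 0 (-a1) (-(a2 * y0 ^ 4)) (-(a3 * y0 ^ 8)) (-(a4 * y0 ^ 12)) ^ (j : ℕ) *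
      (p5 1 (y0 ^ 3) 0 0 0 ^ (4 * (m - 1 - (j : ℕ))) * 1)).eval (U i)
    rw [mul_one, eval_mul, eval_pow, eval_pow, p5_eval, p5_eval]
    have e1 : (1 : ℝ) + y0 ^ 3 * U i + 0 * U i ^ 2 + 0 * U i ^ 3 + 0 * U i ^ 4 = w i := by
      rw [hw i]; ring
    have e2 : 4 * (m - 1) = 4 * (j : ℕ) + 4 * (m - 1 - (j : ℕ)) := by
      have := j.2
      omega
    have e3 := hτw i
    have e4 : S ^ (j : ℕ) * (0 + -a1 * U i + -(a2 * y0 ^ 4) * U i ^ 2 +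
        -(a3 * y0 ^ 8) * U i ^ 3 + -(a4 * y0 ^ 12) * U i ^ 4) ^ (j : ℕ) =
          (w i ^ 4) ^ (j : ℕ) * (τ i : ℝ) ^ (j : ℕ) := by
      rw [← mul_pow, ← mul_pow, e3]
      congr 1
      ring
    rw [e1, e2, pow_add, ← mul_assoc, e4, pow_mul]
    ring
  · intro i
    show y i = y0 + y0 ^ 4 * U i + (y i - r i)
    rw [hUz i]
    ring

end Pool.Agent.Q129.HL.C1R4
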